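import Mathlib
import Pool.Agent.H76.NB.Tri

/-!
MP_913432_an: normal form for the question about entire maps with non-vanishing Jacobian into
non-autonomous basins (base point `0`, small constants, triangular derivatives at `0`).
-/

set_option autoImplicit false

open Pool.Agent.H76.NB

namespace Pool.Agent.Results.MP_913432_an.NormalForm

/-- (1) Every point `p` of a basin can be made the fixed point: up to an automorphism `A` of `ℂ²`
with `A 0 = p` the basin is the basin of a sequence with constants `C' ^ k`, `D' ^ k`, where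
`C' < C`, `D' > D` are arbitrarily close to `C`, `D` and `k ≥ 1` is arbitrary, and with all
derivatives at `0` upper triangular.
(2) For every `ε > 0` the problem for all sequences and all points is equivalent to the problem for
`p = 0` and sequences with `D < ε` and upper triangular derivatives at `0`.
(3) The same within the class of sequences with `D ^ τ < C`, for every real `τ`. -/
theorem result :
    (∀ (C D C' D' : ℝ) (f : ℕ → (E ≃ E)), 0 < C' → C' < C → C < D → D < D' → D' < 1 →
      Admissible C D f → ∀ p ∈ basin f, ∀ k : ℕ, 1 ≤ k →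
      ∃ g : ℕ → (E ≃ E), Admissible (C' ^ k) (D' ^ k) g ∧ Tri g ∧ ∃ A : E ≃ E,
        Differentiable ℂ A ∧ Differentiable ℂ A.symm ∧ A 0 = p ∧ A '' (basin g) = basin f) ∧
    (∀ ε : ℝ, 0 < ε →
      ((∀ (C D : ℝ) (f : ℕ → (E ≃ E)), 0 < C → C < D → D < 1 → Admissible C D f →
        ∀ p ∈ basin f, Good (basin f) p) ↔
      (∀ (C D : ℝ) (f : ℕ → (E ≃ E)), 0 < C → C < D → D < 1 → Admissible C D f →
        D < ε → Tri f → Good (basin f) 0))) ∧
    (∀ τ ε : ℝ, 0 < ε →
      ((∀ (C D : ℝ) (f : ℕ → (E ≃ E)), 0 < C → C < D → D < 1 → D ^ τ < C → Admissible C D f →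
        ∀ p ∈ basin f, Good (basin f) p) ↔
      (∀ (C D : ℝ) (f : ℕ → (E ≃ E)), 0 < C → C < D → D < 1 → D ^ τ < C → Admissible C D f →
        D < ε → Tri f → Good (basin f) 0))) := by
  refine ⟨?_, fun ε hε => reduction_all hε, fun τ ε hε => reduction_tau τ hε⟩
  intro C D C' D' f h1 h2 h3 h4 h5 hf p hp k hk
  exact normal h1 h2 h4 h5 (by linarith) hf hp hk

end Pool.Agent.Results.MP_913432_an.NormalForm
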